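import Pool.Agent.K1H14.SF.Tri

/-!
# MP_09799c_ag: the `ℓ`-adic groups of the subvarieties through a point with spin monodromy

Let `x` be a point of `A_g` whose `ℓ`-adic monodromy group `G_{ℓ,x}` is `GSpin(T)`, acting on
`V_ℓ(A_x) ⊗ ℂ = W Q = C⁺(T)` by left multiplication, with `dim T` odd and at least five. Let `Y` be
any subvariety through `x` over which the endomorphisms of `A_x` extend, and let `A n` be the space
of the `n`-linear forms on `V_ℓ` (with Tate twists) which are Tate classes on `Y`; thus `InLie A` is
the Lie algebra of `G_{ℓ,Y}`, up to homotheties.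

**Theorem.** There are at most three possibilities for it: the Lie algebra of `Spin(T)`, and then
all Tate classes at `x` are Tate classes on `Y` (that is, `G_{ℓ,Y} = G_{ℓ,x}`); the Lie algebra of
`Spin(T ⊕ 1)` (only if `dim T` is three modulo four); the whole Lefschetz Lie algebra of `A_x` (all
skew elements of `C⁺(T)`). Hence `x` is `ℓ`-Galois special if and only if the first case occurs for
no positive-dimensional such `Y`. The same holds for the Hodge classes at `x` in the place of the
Tate classes on `Y`: the Mumford-Tate group of `A_x` is `GSpin(T)`, `GSpin(T ⊕ 1)` or the (identity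
component of the) Lefschetz group.
-/

set_option autoImplicit false

namespace Pool.Agent.Results.MP_09799c_ag.LieAlgebrasThroughSpinPoints

open Pool.Agent.K1H14.KS Pool.Agent.K1H14.SD Pool.Agent.K1H14.SF CliffordAlgebra

universe u

/-- **Three possible Lie algebras.** -/
theorem result {T : Type u} [AddCommGroup T] [Module ℂ T] (Q : QuadraticForm ℂ T)
    (hQ : ∀ t : T, (∀ s : T, QuadraticMap.polar Q s t = 0) → t = 0)
    (hd : Odd (Module.finrank ℂ T)) (h5 : 5 ≤ Module.finrank ℂ T)
    (A : ∀ n : ℕ, Submodule ℂ (WForm Q n)) (hA : IsMotivicW A) :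
    ((∀ x : W Q, InLie A x ↔ ∃ Y : T →ₗ[ℂ] T, IsLiePair x Y) ∧
      ∀ (n : ℕ) (f : WForm Q n), IsTate f → f ∈ A n) ∨
    (Module.finrank ℂ T % 4 = 3 ∧ ∀ x : W Q, InLie A x ↔ IsMid x) ∨
    ∀ x : W Q, InLie A x ↔ reverse (x : CliffordAlgebra Q) = -(x : CliffordAlgebra Q) :=
  trichotomy hQ hd h5 hA

end Pool.Agent.Results.MP_09799c_ag.LieAlgebrasThroughSpinPoints
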