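import Mathlib
import Pool.Agent.K1H13.X.Main

/-!
# One class in codimension two decides in which subvarieties the group of a point is normal

Let `x` be a point of `𝒜_g` (or the generic point of a subvariety), `V` the rational `ℓ`-adic Tate
module of the abelian variety `A_x` and `Γ` the Galois group of a finitely generated field of
definition. There is one class `Θ` in `H^4(A_x^4, ℚ_ℓ)(2)`, fixed by the whole of `Γ` and depending
only on `x`, such that for every subvariety `Y` through `x`:

* `Θ` is a Tate class on `Y` if and only if `G_{ℓ,x}` is normal in `G_{ℓ,Y}`;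
* if and only if the Lie algebra of `Y` is contained in the sum of that of `x` and of
  `End(A_x) ⊗ ℚ_ℓ`, that is, `G_{ℓ,Y}` is `G_{ℓ,x}` up to a subgroup of the endomorphisms;
* if the Lie algebra of `Y` has no proper ideals and that of `x` is not zero, then
  `G_{ℓ,Y} = G_{ℓ,x}` if and only if `Θ` is a Tate class on `Y`;
* if the endomorphisms of `A_x` extend to some `Y` in whose group `G_{ℓ,x}` is not normal, then `Θ`
  is exotic: it is not a combination of products of two Tate classes of degree two.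

`Θ` is the Casimir element of the Lie algebra of the operators which kill all Tate classes on the
powers of `A_x`. The step from the Lie algebra of `Y` back to Tate classes on `Y` is the theorem
that the forms killed by the Lie algebra of the operators which kill all Tate forms are Tate forms,
for every representation of every group over `ℚ_ℓ` (`Pool.Agent.K1H13.X.tate_of_kills_padic`).
-/

namespace Pool.Agent.Results.MP_09799c_ag.NormalityClass

open Pool.Agent.H204R3.GP Pool.Agent.K1H13.X

theorem result {ℓ : ℕ} [Fact ℓ.Prime] {V : Type} [AddCommGroup V] [Module ℚ_[ℓ] V]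
    [FiniteDimensional ℚ_[ℓ] V] {Γ : Type} [Group Γ] (ρ : Representation ℚ_[ℓ] Γ V)
    (χ : Γ →* ℚ_[ℓ]) (ω : V →ₗ[ℚ_[ℓ]] V →ₗ[ℚ_[ℓ]] ℚ_[ℓ]) (hx : IsPoint ρ χ ω) :
    ∃ Θ : (Fin 4 → V) [⋀^Fin 2 × Fin 2]→ₗ[ℚ_[ℓ]] ℚ_[ℓ],
      (∀ s v, Θ (fun l i => ρ s (v l i)) = χ s ^ 2 * Θ v) ∧
      ∀ (G : Type) [Group G] (ρ' : Representation ℚ_[ℓ] G V) (χ' : G →* ℚ_[ℓ]),
        PassesThrough ρ χ ω ρ' χ' →
          (IsTateClass ρ' χ' 2 Θ ↔ IsNormalIn ρ χ ρ' χ') ∧
          (IsTateClass ρ' χ' 2 Θ ↔ IsAlmostProduct ρ χ ρ' χ') ∧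
          (HasNoIdeals ρ' χ' → (∃ Z, InLie ρ χ Z ∧ Z ≠ 0) →
            (SameGroup ρ χ ρ' χ' ↔ IsTateClass ρ' χ' 2 Θ)) ∧
          (SameEndo ρ ρ' → ¬IsNormalIn ρ χ ρ' χ' → ¬Decomposable ρ χ Θ) := by
  refine ⟨Theta hx, Theta_inv hx, fun G _ ρ' χ' hY => ⟨normal_iff hx hY, product_iff hx hY,
    simple_iff hx hY, fun hE hne hd => hne ((normal_iff hx hY).1
      (decomp_up hx.nondeg hx.pairing hY.pairing hE hd))⟩⟩

end Pool.Agent.Results.MP_09799c_ag.NormalityClass
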