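import Mathlib
import Pool.Agent.K1H15.GS.Alt
import Pool.Agent.K1H15.GS.Defs

/-!
# One Tate class of codimension two detects the `ℓ`-Galois special points

Let `A → Y` be a polarized abelian scheme over a normal variety over a finitely generated field `k`
and `x ∈ Y(k)`. The group `G_{ℓ,x}` is contained in `G_{ℓ,Y}`, and the two groups are equal if and
only if every Tate class on every power of the fibre `A_x` spreads out, that is, is a Tate class of
the generic fibre (up to parallel transport). We prove that this condition on infinitely many spaces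
of classes can be checked in degree two, on `A_x^2`, and for ONE class in degree four: there is a
class `Θ` in `H^4(A_x^4, ℚ_ℓ)(2)`, fixed by the Galois group of `k` and depending only on the
representation of this group on `V = H^1(A_x, ℚ_ℓ)`, such that for all families `Y` through `x`

  `G_{ℓ,Y} = G_{ℓ,x}` if and only if the divisor classes on `A_x^2` and the class `Θ` spread out.

So `x` is `ℓ`-Galois special if and only if the divisor classes on `A_x^2` and `Θ` do not spread out
over a closed irreducible subvariety of positive dimension which contains `x`; if `End(A_x) = ℤ` the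
single class `Θ` decides.

The class `Θ` is the Casimir element of the Lie algebra `𝔥` of the operators annihilating all Tate
classes on the powers of `A_x`. If it spreads out, the corresponding Lie algebra `𝔤` of the generic
fibre is the sum of `𝔥` and of operators which commute with `𝔥` and with a subgroup of finite index
of the Galois group (the commutant theorem `Pool.Agent.K1H15.MT.almost_of_comm`); if also the divisor
classes spread out these are central in `𝔤`, so `[𝔤, 𝔤] ⊆ 𝔥`. The Lie algebra `𝔫` of the geometric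
fundamental group is contained in `𝔤`, and perfect by the theorem of Deligne, so it is contained in
`𝔥`; hence it kills the Tate classes of `A_x`. The last step is the new theorem
`Pool.Agent.K1H15.P1.tate_of_kills`: for every group, the forms killed by the Lie algebra of the
operators which kill all Tate forms are Tate forms.
-/

namespace Pool.Agent.Results.MP_09799c_ag.OneClassOfCodimensionTwo

open Pool.Agent.H204R3.GP Pool.Agent.K1H15.GS

/-- One class in `H^4(A_x^4)(2)`, together with the divisor classes on `A_x^2`, decides for all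
families through `x` whether the `ℓ`-adic monodromy group of the family is the one of `A_x`. -/
theorem result (ℓ : ℕ) [Fact ℓ.Prime]
    -- the cohomology `V` of `A_x` with the action of the Galois group and the polarization
    {V : Type} [AddCommGroup V] [Module ℚ_[ℓ] V] [FiniteDimensional ℚ_[ℓ] V]
    {Γx : Type} [Group Γx] (ρx : Representation ℚ_[ℓ] Γx V) (χx : Γx →* ℚ_[ℓ])
    (ω : V →ₗ[ℚ_[ℓ]] V →ₗ[ℚ_[ℓ]] ℚ_[ℓ])
    (hnd : ∀ u, (∀ v, ω u v = 0) → u = 0)
    (hωρ : ∀ s u v, ω (ρx s u) (ρx s v) = χx s * ω u v)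
    -- the theorem of Faltings
    (hss : FiniteIndexSemisimple ρx) :
    ∃ Θ : (Fin 4 → V) [⋀^Fin 2 × Fin 2]→ₗ[ℚ_[ℓ]] ℚ_[ℓ],
      (∀ s (v : Fin 2 × Fin 2 → Fin 4 → V), Θ (fun l i => ρx s (v l i)) = χx s ^ 2 * Θ v) ∧
      ∀ Y : FamilyThrough ρx χx ω,
        Y.HasConstantMonodromy ↔ Y.SpreadsDivisorClasses ∧ Y.Spreads 2 Θ := by
  classical
  have hnt := Pool.Agent.K1H15.MT.traceNondeg (ρ := ρx) (χ := χx) hnd hωρ hss
  set θ := Pool.Agent.W516.KC2.casimir (Pool.Agent.H204R3.SP.lieT ρx χx) hnt ω with hθdef
  have hθ : ∀ s v, θ (fun l => ρx s (v l)) = χx s ^ 2 * θ v := by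
    intro s v
    refine Pool.Agent.W516.KC2.casimir_inv (Pool.Agent.H204R3.SP.lieT ρx χx) hnt ω (g := ρx s)
      (g' := ρx s⁻¹) ?_ ?_ (hωρ s) ?_ ?_ v
    · rw [← map_mul, inv_mul_cancel, map_one]
    · rw [← map_mul, mul_inv_cancel, map_one]
    · intro X hX
      exact Pool.Agent.H204R3.SP.lieT_conj ρx χx s hX
    · intro X hX
      have h1 := Pool.Agent.H204R3.SP.lieT_conj ρx χx s⁻¹ hX
      rwa [inv_inv] at h1
  have hinv : ∀ s (v : Fin 2 × Fin 2 → Fin 4 → V),
      Pool.Agent.K1H15.MT.aI (⇑Pool.Agent.K1H13.N.cc) θ (fun l i => ρx s (v l i)) =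
        χx s ^ 2 * Pool.Agent.K1H15.MT.aI (⇑Pool.Agent.K1H13.N.cc) θ v := by
    intro s v
    rw [Pool.Agent.K1H15.MT.aI_apply, Pool.Agent.K1H15.MT.aI_apply, Finset.mul_sum]
    refine Finset.sum_congr rfl fun σ _ => ?_
    rw [hθ s fun l => v (σ l) (Pool.Agent.K1H13.N.cc l)]
    ring
  refine ⟨Pool.Agent.K1H15.MT.aI (⇑Pool.Agent.K1H13.N.cc) θ, hinv, fun Y => ⟨fun h => ?_, ?_⟩⟩
  · exact ⟨fun f hf => h 2 1 f hf, h 4 2 _ ⟨⊤, inferInstance, fun s _ v => hinv s v⟩⟩
  · rintro ⟨h1, h2⟩ n j f hf
    change IsTateClass Y.ρ Y.χ 2 (Pool.Agent.K1H15.MT.aI (⇑Pool.Agent.K1H13.N.cc) θ) at h2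
    change IsTateClass Y.ρ Y.χ j f
    have h3 := tate_rsI (⇑Pool.Agent.K1H13.N.cc) h2
    rw [rs_aI Pool.Agent.K1H13.N.cc.injective] at h3
    refine class_of_forms (ρ' := ρx) (χ' := χx) (fun φ hφ => ?_) hf
    refine spread_all (ω := ω) hnd Y.pairing hωρ hss Y.ρ_point Y.χ_point Y.decomposition Y.χ_geom
      Y.semisimple.1 Y.semisimple.2 (fun φ hφ => ?_) h3 hφ
    exact forms_of_class (I := fun l : Fin 1 × Fin 2 => l.2)
      (fun a b hab => Prod.ext (Subsingleton.elim _ _) hab) h1 hφ

end Pool.Agent.Results.MP_09799c_ag.OneClassOfCodimensionTwo
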