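import Pool.Agent.K1H14.SF.Asm

/-!
# MP_09799c_ag: points of `A_g` with spin monodromy, rank zero modulo four

Let `x` be a point of `A_g` whose `ℓ`-adic monodromy group `G_{ℓ,x}` is `GSpin(T)`, acting on
`V_ℓ(A_x) ⊗ ℂ = W Q = C⁺(T)` by left multiplication, `dim T` divisible by four and at least eight.
The even Clifford algebra is a product of two simple algebras, so that `A_x` has two isotypic parts
(over an extension), and the `ℓ`-adic group acts on them through the two half-spin representations.
Let `Y` be a subvariety through `x` over which the endomorphisms of `A_x` extend, and let `A n` be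
the space of the `n`-linear forms on `V_ℓ` (with Tate twists) which are Tate classes on `Y`.

**Theorem.** `G_{ℓ,Y} = G_{ℓ,x}` (all Tate classes at `x` on all powers, in all degrees, are Tate
classes on `Y`) if and only if ONE Tate class on `Y` is not killed by ONE element `u v ω`, `u` and
`v` orthogonal vectors and `ω` the volume element: that is, if and only if the Tate classes on `Y`
do not all come from the two isotypic parts independently.

The same holds with the Hodge classes at `x` in the place of the Tate classes on `Y` (it is then the
Mumford-Tate conjecture for `x`).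
-/

set_option autoImplicit false

namespace Pool.Agent.Results.MP_09799c_ag.SpinPointsRankZeroModFour

open Pool.Agent.K1H14.KS Pool.Agent.K1H14.SD Pool.Agent.K1H14.SF CliffordAlgebra

universe u

/-- **One class which links the two half-spin parts gives all Tate classes.** -/
theorem result {T : Type u} [AddCommGroup T] [Module ℂ T] (Q : QuadraticForm ℂ T)
    (hQ : ∀ t : T, (∀ s : T, QuadraticMap.polar Q s t = 0) → t = 0)
    (hd : Module.finrank ℂ T % 4 = 0) (h8 : 8 ≤ Module.finrank ℂ T)
    (A : ∀ n : ℕ, Submodule ℂ (WForm Q n)) (hA : IsMotivicW A) :
    (∃ (n : ℕ) (f : WForm Q n) (x : W Q), f ∈ A n ∧ IsTestD x ∧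
      ¬ Kills (LinearMap.mulLeft ℂ x) f) ↔
    ∀ (n : ℕ) (f : WForm Q n), IsTate f → f ∈ A n :=
  tate0_iff hQ hd h8 hA

end Pool.Agent.Results.MP_09799c_ag.SpinPointsRankZeroModFour
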